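import Pool.Agent.Helper74.WH.Main

/-!
# Halves of numerical semigroups with few generators satisfy the inequality of Wilf

Let `T = S / 2`. For each gap `z` of `S` there is a pseudo-Frobenius number `f` of `S` with
`f - z` in `S`. If `f` is even this gives an injection of these even gaps into the even elements of
`S` below the largest even gap; if `f` is odd then `f - z` contains an odd generator, and one
subtracts it. If `S` has at most three generators then it has at most two pseudo-Frobenius numbers,
and by means of the relations of Herzog the classes can be merged, so that `T` has at most three
times as many gaps as elements below the Frobenius number, except if the three generators and both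
pseudo-Frobenius numbers are odd: then four times, but in this case `T` has at least five minimal
generators. If `S` is symmetric there is only one pseudo-Frobenius number, and if all four generators
are odd then the class of one of them can be moved into the class of another one. If `T` has at most
three generators then it has at most two pseudo-Frobenius numbers.
-/

set_option autoImplicit false

namespace Pool.Agent.Results.MP_b8f153_nt.FewGenerators

open Pool.Agent.Helper74.WH

theorem result (S : AddSubmonoid ℕ) (hS : {x : ℕ | x ∉ S}.Finite)
    (h : embDim S ≤ 3 ∨ (embDim S ≤ 4 ∧ Symmetric S)) : Wilf (half S) :=
  h.elim (wilf_half_three hS) fun h => wilf_half_sym hS h.2 h.1

end Pool.Agent.Results.MP_b8f153_nt.FewGenerators
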