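import Pool.Agent.Helper39.WH.Small

/-!
# Wilf's inequality for halves of numerical semigroups with few odd minimal generators

The definitions are in `Pool/Agent/Helper39/WH/Defs.lean` and `Basic.lean`: `IsNumerical S`: finite
complement; `minGens S`, `embDim S`: the minimal generators and their number; `genus S`: the number
of gaps; `conductor S = F(S) + 1`; `Wilf S`: Wilf's inequality; `quot S 2 = S/2`; `PF S`: the
pseudo-Frobenius numbers `f`: `f` is not in `S` and `f + s` is in `S` for all nonzero `s` in `S`.
-/

set_option autoImplicit false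

open Pool.Agent.Helper39.WH

namespace Pool.Agent.Results.MP_b8f153_nt.HalvesByParity

/-- Let `S` be a numerical semigroup with `v` even and `o` odd minimal generators, `τ₀` even and
`τ₁` odd pseudo-Frobenius numbers. Then `S/2` has at most `τ₀ + o τ₁` pseudo-Frobenius numbers and
satisfies Wilf's inequality if `τ₀ + o τ₁ < max v 4`. In particular, the half of a symmetric
numerical semigroup with at most three odd minimal generators, or with fewer odd than even minimal
generators, satisfies Wilf's inequality. -/
theorem result :
    (∀ S : AddSubmonoid ℕ, IsNumerical S →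
      (PF (quot S 2)).ncard ≤ {f ∈ PF S | Even f}.ncard +
        {n ∈ minGens S | Odd n}.ncard * {f ∈ PF S | Odd f}.ncard ∧
      ({f ∈ PF S | Even f}.ncard + {n ∈ minGens S | Odd n}.ncard * {f ∈ PF S | Odd f}.ncard <
        max {n ∈ minGens S | Even n}.ncard 4 → Wilf (quot S 2))) ∧
    (∀ S : AddSubmonoid ℕ, IsNumerical S →
      (∀ x : ℕ, x ∉ S → conductor S - 1 - x ∈ S) →
      {n ∈ minGens S | Odd n}.ncard < max {n ∈ minGens S | Even n}.ncard 4 →
      Wilf (quot S 2)) := by
  exact ⟨fun S hS => ⟨card_pf_half hS, wilf_half hS⟩, fun S hS hsym h =>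
    wilf_half_symm hS hsym h⟩

end Pool.Agent.Results.MP_b8f153_nt.HalvesByParity
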