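import Pool.Agent.Helper74.WH.SymOdd

/-!
# Halves of numerical semigroups whose pseudo-Frobenius numbers are odd

Let `T = S / 2`, `n` the number of the elements of `T` below its Frobenius number and `g` its genus.
If `y > q` is a gap of `T` then `2 y - q` is a gap of `S`, so `s = f - (2 y - q)` is in `S` for some
pseudo-Frobenius number `f` of `S`. As `f` and `q` are odd, `s` is even, and it is smaller than the
even gap `f - q`. So `g ≤ t n + h` with `h` the number of gaps of `T` below `q`. If `e(T) ≥ 2 t + 2`
then either `g ≤ (e(T) - 1) n`, or `g + n < 2 h`, so the conductor of `T` is smaller than twice the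
multiplicity of `T`; this case is due to Kaplan.

If `S` is symmetric and generated by odd integers then `t = 1`, and for the least generator `q` all
nonzero even elements of `S` are at least `2 q`.
-/

set_option autoImplicit false

namespace Pool.Agent.Results.MP_b8f153_nt.OddPseudoFrobenius

open Pool.Agent.Helper74.WH

theorem result (S : AddSubmonoid ℕ) (hS : {x : ℕ | x ∉ S}.Finite) :
    (Symmetric S → (∀ x ∈ minGens S, Odd x) → Wilf (half S)) ∧
    ((∀ f ∈ pseudoFrob S, Odd f) → ∀ q ∈ S, Odd q →
      {y : ℕ | y ∉ half S ∧ y < q}.ncard ≤ mult (half S) →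
      ((pseudoFrob S).ncard = 1 ∨ 2 * (pseudoFrob S).ncard + 2 ≤ embDim (half S)) →
      Wilf (half S)) :=
  ⟨fun hs hg => wilf_half_sym_odd hS hs hg,
    fun hodd q hq hqo hh ht => wilf_half_odd hS hodd hq hqo hh ht⟩

end Pool.Agent.Results.MP_b8f153_nt.OddPseudoFrobenius
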