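import Pool.Agent.Helper39.WH.Glue

/-!
# Wilf's inequality for proportionally modular numerical semigroups, their gluings and quotients

The definitions are in `Pool/Agent/Helper39/WH/Defs.lean` and `Glue.lean`: `IsNumerical S`: finite
complement; `minGens S`, `embDim S`: the minimal generators and their number; `genus S`: the number
of gaps; `conductor S = F(S) + 1`; `Wilf S`: Wilf's inequality; `quot S p = S/p`; `PropMod S`: for
some real `lam < mu`, `S` consists of the `x` for which `[lam x, mu x]` contains an integer;
`glue T d a = d T + a ℕ`; `Glued`: the smallest class which contains the proportionally modular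
semigroups and, with `T`, all `d T + a ℕ` with `a ∈ T` positive and `d` positive and coprime to `a`;
`GluedAt p`: the same with `p` dividing `d` or `a` in each step.
-/

set_option autoImplicit false

open Pool.Agent.Helper39.WH

namespace Pool.Agent.Results.MP_b8f153_nt.ProportionallyModular

/-- The semigroups obtained from proportionally modular ones by gluings are numerical and satisfy
Wilf's inequality. So do their quotients `S/p`, in particular `S/2`, if `p` divides one of the two
numbers of each gluing; these quotients belong to the same class. The quotients of a proportionally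
modular semigroup are proportionally modular. The semigroups `{x | d x ∈ ⟨a, b⟩}` (`a`, `b`
coprime), the semigroups generated by `a, a + h, …, a + k h` (`a`, `h` coprime) and the semigroups
`{x | a x mod b ≤ c x}` are proportionally modular. -/
theorem result :
    (∀ S : AddSubmonoid ℕ, Glued S → IsNumerical S ∧ Wilf S) ∧
    (∀ (S : AddSubmonoid ℕ) (p : ℕ), 0 < p → GluedAt p S →
      Glued S ∧ Glued (quot S p) ∧ IsNumerical (quot S p) ∧ Wilf (quot S p)) ∧
    (∀ (S : AddSubmonoid ℕ) (p : ℕ), 0 < p → PropMod S → PropMod (quot S p)) ∧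
    (∀ (S : AddSubmonoid ℕ) (a b d : ℕ), 0 < a → 0 < b → 0 < d → a.Coprime b →
      (∀ x, x ∈ S ↔ ∃ i j : ℕ, d * x = i * a + j * b) → PropMod S) ∧
    (∀ (S : AddSubmonoid ℕ) (a h k : ℕ), 0 < a → 0 < h → 0 < k → a.Coprime h →
      (∀ x, x ∈ S ↔ ∃ n j : ℕ, j ≤ n * k ∧ x = n * a + j * h) → PropMod S) ∧
    (∀ (S : AddSubmonoid ℕ) (a b c : ℕ), 0 < b → 0 < c →
      (∀ x, x ∈ S ↔ a * x % b ≤ c * x) → PropMod S) := by
  refine ⟨fun S hS => ⟨hS.good.1, hS.good.wilf⟩, fun S p hp hS => ⟨hS.glued, hS.quot hp,
    (hS.quot hp).good.1, (hS.quot hp).good.wilf⟩, fun S p hp hS => hS.quot hp, ?_,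
    fun S a h k ha hh hk hc hS => propMod_arith ha hh hk hc hS,
    fun S a b c hb hc h => propMod_mod hb hc h⟩
  intro S a b d ha hb hd hab h
  let T : AddSubmonoid ℕ :=
    { carrier := {x | ∃ i j : ℕ, x = i * a + j * b}
      zero_mem' := ⟨0, 0, by simp⟩
      add_mem' := by
        rintro x y ⟨i, j, rfl⟩ ⟨k, l, rfl⟩
        exact ⟨i + k, j + l, by ring⟩ }
  have hT : PropMod T := propMod_two ha hb hab fun x => Iff.rfl
  have : S = quot T d := by
    ext x
    rw [h, mem_quot]
    exact Iff.rfl
  rw [this]
  exact hT.quot hd

end Pool.Agent.Results.MP_b8f153_nt.ProportionallyModular
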